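import Pool.Agent.helper82.T5.SpecS

set_option autoImplicit false

namespace Pool.Agent.T5

open Finset NumberField Pool.Agent.helper3.FT Pool.Agent.helper47.RA

lemma SFA_abs (x M : ℤ) (h : x ^ 2 ≤ M) : |x| ≤ M := by
  have h1 : |x| ≤ x ^ 2 := by
    rw [← sq_abs]
    rcases (abs_nonneg x).eq_or_lt with h0 | h0
    · rw [← h0]
      norm_num
    · nlinarith [Int.add_one_le_iff.mpr h0]
  linarith

theorem SFA : SFA_stmt := by
  refine ⟨?_, ?_, ?_⟩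
  · intro K _ _ Y
    apply (Ideal.finite_setOfPred_absNorm_le (S := 𝓞 K) ⌊Y⌋₊).subset
    intro a ha
    exact Nat.le_floor ha.2.2.2.2.2
  · intro K _ _ Q hD a X
    classical
    obtain ⟨M, hM⟩ : ∃ M : ℤ, M = ⌊4 * ((Ideal.absNorm a : ℝ) ^ 2 * X)⌋ := ⟨_, rfl⟩
    have hfin : (((Finset.Icc (-M) M) ×ˢ (Finset.Icc (-M) M)).image
        (fun p : ℤ × ℤ => ((p.1 : 𝓞 K) + p.2 * Q.ω)) : Set (𝓞 K)).Finite := Finset.finite_toSet _
    apply hfin.subset
    intro α hα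
    obtain ⟨h1, h2, h3⟩ := hα
    obtain ⟨x, hx⟩ := Q.exists_re α
    obtain ⟨y, hy⟩ : ∃ y : ℤ, y = Q.Y α := ⟨_, rfl⟩
    rw [← hy] at hx
    have hN : α * Q.cj α = ((x ^ 2 + Q.t * x * y - Q.k * y ^ 2 : ℤ) : 𝓞 K) := by
      rw [hx, Q.norm_form]
    have hab := Q.absNorm_eq α _ hN
    have h4 : 4 * (x ^ 2 + Q.t * x * y - Q.k * y ^ 2) = (2 * x + Q.t * y) ^ 2 - Q.D * y ^ 2 := by
      have ht := Q.t_sq
      have hk := Q.hk
      rw [hk]
      linear_combination (-y ^ 2) * ht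
    have hD1 : 1 ≤ -Q.D := by omega
    have hDy : y ^ 2 ≤ -Q.D * y ^ 2 := by nlinarith [sq_nonneg y]
    have hNn : 0 ≤ x ^ 2 + Q.t * x * y - Q.k * y ^ 2 := by nlinarith [sq_nonneg (2 * x + Q.t * y), sq_nonneg y]
    rw [abs_of_nonneg hNn] at hab
    have hv : (Q.v₁ α) ^ 2 = ((Ideal.absNorm (Ideal.span {α}) : ℕ) : ℝ) := by
      rw [Q.hnorm, ← Q.himag hD α, sq]
    rw [hv] at h3
    have h5 : 4 * (x ^ 2 + Q.t * x * y - Q.k * y ^ 2) ≤ M := by
      rw [hM]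
      apply Int.le_floor.mpr
      have h6 : (((x ^ 2 + Q.t * x * y - Q.k * y ^ 2 : ℤ)) : ℝ) = ((Ideal.absNorm (Ideal.span {α}) : ℕ) : ℝ) := by
        rw [← hab]
        push_cast
        rfl
      push_cast at h6 ⊢
      linarith
    have h7 := SFA_abs y M (by nlinarith [sq_nonneg (2 * x + Q.t * y)])
    have h8 := SFA_abs (2 * x + Q.t * y) M (by nlinarith [sq_nonneg y])
    rw [Finset.mem_coe, Finset.mem_image]
    refine ⟨(x, y), ?_, hx.symm⟩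
    rw [Finset.mem_product, Finset.mem_Icc, Finset.mem_Icc]
    rw [abs_le] at h7 h8
    have hx2 : -M ≤ x ∧ x ≤ M := by
      rcases Q.ht with ht | ht
      · rw [ht] at h8
        constructor <;> nlinarith [h8.1, h8.2, h7.1, h7.2]
      · rw [ht] at h8
        constructor <;> nlinarith [h8.1, h8.2, h7.1, h7.2]
    exact ⟨hx2, h7⟩
  · intro D hD hneg
    obtain ⟨K, fd, nf, Q, h1, h2, h3⟩ := exists_QF_neg D hD hneg
    exact ⟨@Fld.mk D K fd nf Q h1 h2 h3⟩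

end Pool.Agent.T5
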