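import Pool.Agent.helper82.T5.SpecS

set_option autoImplicit false

namespace Pool.Agent.T5

open Finset NumberField Pool.Agent.helper3.FT Pool.Agent.helper47.RA

theorem STW (hAIST : AIST_stmt) : STW_stmt := by
  intro t p ht hp hp2 hdis hZL
  obtain ⟨h1, -, -, -, h5, -⟩ := hAIST t ht
  have hpp : Prime (p : ℤ) := Nat.prime_iff_prime_int.mp hp
  have hd : (p : ℤ) ∣ dis t := (dvd_pow_self _ two_ne_zero).trans hdis
  have hcast : ∀ a b : ℕ, (p : ℤ) ∣ (a : ℤ) * b → p ∣ a * b := fun a b h => by exact_mod_cast h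
  by_cases hZ : (p : ℤ) ∣ t.2.2.2
  · refine ⟨?_, Or.inr hZ⟩
    have h6 : (p : ℤ) ∣ (t.2.2.2 * t.2.2.1 - lam t * t.2.1) ^ 2 := by
      have h7 : (t.2.2.2 * t.2.2.1 - lam t * t.2.1) ^ 2 = dis t * ((t.1.1 : ℤ) * t.1.2) ^ 2 +
          4 * t.2.2.2 ^ 2 * lam t * (t.1.2 : ℤ) ^ 2 := by linarith
      rw [h7]
      apply dvd_add
      · exact hd.mul_right _
      · have : 4 * t.2.2.2 ^ 2 * lam t * (t.1.2 : ℤ) ^ 2 = t.2.2.2 * (4 * t.2.2.2 * lam t * (t.1.2 : ℤ) ^ 2) := by ring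
        rw [this]
        exact hZ.mul_right _
    have h8 := hpp.dvd_of_dvd_pow h6
    have h9 : (p : ℤ) ∣ lam t * t.2.1 := by
      have h10 : lam t * t.2.1 = t.2.2.2 * t.2.2.1 - (t.2.2.2 * t.2.2.1 - lam t * t.2.1) := by ring
      rw [h10]
      exact dvd_sub (hZ.mul_right _) h8
    rcases hpp.dvd_or_dvd h9 with h11 | h11
    · have h12 : t.2.1 * t.2.2.1 = lam t * (t.1.1 : ℤ) ^ 2 - t.2.2.2 * (t.1.2 : ℤ) ^ 2 := by linarith
      rw [h12]
      exact dvd_sub (h11.mul_right _) (hZ.mul_right _)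
    · exact h11.mul_right _
  · have hL : (p : ℤ) ∣ lam t := by
      rcases hZL with h | h
      · exact absurd h hZ
      · exact h
    have h6 : (p : ℤ) ∣ (t.2.2.2 * t.2.2.1 - lam t * t.2.1) ^ 2 := by
      have h7 : (t.2.2.2 * t.2.2.1 - lam t * t.2.1) ^ 2 = dis t * ((t.1.1 : ℤ) * t.1.2) ^ 2 +
          lam t * (4 * t.2.2.2 ^ 2 * (t.1.2 : ℤ) ^ 2) := by linarith
      rw [h7]
      exact dvd_add (hd.mul_right _) (hL.mul_right _)
    have h8 := hpp.dvd_of_dvd_pow h6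
    have h9 : (p : ℤ) ∣ t.2.2.2 * t.2.2.1 := by
      have h10 : t.2.2.2 * t.2.2.1 = (t.2.2.2 * t.2.2.1 - lam t * t.2.1) + lam t * t.2.1 := by ring
      rw [h10]
      exact dvd_add h8 (hL.mul_right _)
    have hg : (p : ℤ) ∣ t.2.2.1 := by
      rcases hpp.dvd_or_dvd h9 with h | h
      · exact absurd h hZ
      · exact h
    refine ⟨hg.mul_left _, Or.inl ?_⟩
    have h12 : t.2.2.2 * (t.1.2 : ℤ) ^ 2 = lam t * (t.1.1 : ℤ) ^ 2 - t.2.1 * t.2.2.1 := by linarith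
    have h13 : (p : ℤ) ∣ t.2.2.2 * (t.1.2 : ℤ) ^ 2 := by
      rw [h12]
      exact dvd_sub (hL.mul_right _) (hg.mul_left _)
    have h14 : (p : ℤ) ∣ (t.1.2 : ℤ) := by
      rcases hpp.dvd_or_dvd h13 with h | h
      · exact absurd h hZ
      · exact hpp.dvd_of_dvd_pow h
    have h15 : p ∣ t.1.2 := by exact_mod_cast h14
    exact h15.mul_left _

end Pool.Agent.T5
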