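import Pool.Agent.helper82.T5.SpecS

set_option autoImplicit false

namespace Pool.Agent.T5

open Finset NumberField Pool.Agent.helper3.FT Pool.Agent.helper47.RA

theorem SEU : SEU_stmt := by
  unfold SEU_stmt
  have h1 := riemannZeta_eulerProduct (s := 2) (by norm_num)
  rw [riemannZeta_two] at h1
  have h2 : ∀ n : ℕ, ∏ p ∈ Nat.primesBelow n, (1 - (p : ℂ) ^ (-(2 : ℂ)))⁻¹ =
      (((∏ p ∈ Nat.primesBelow n, (1 - 1 / (p : ℝ) ^ 2))⁻¹ : ℝ) : ℂ) := by
    intro n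
    rw [← Finset.prod_inv_distrib, Complex.ofReal_prod]
    apply Finset.prod_congr rfl
    intro p _
    rw [Complex.cpow_neg]
    push_cast
    have : (p : ℂ) ^ (2 : ℂ) = (p : ℂ) ^ 2 := by
      exact_mod_cast Complex.cpow_natCast (p : ℂ) 2
    rw [this, one_div]
  have h3 : Filter.Tendsto (fun n : ℕ => (((∏ p ∈ Nat.primesBelow n, (1 - 1 / (p : ℝ) ^ 2))⁻¹ : ℝ) : ℂ)) Filter.atTop
      (nhds (((Real.pi ^ 2 / 6 : ℝ)) : ℂ)) := by
    refine (h1.congr h2).trans ?_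
    push_cast
    exact le_rfl
  have h4 : Filter.Tendsto (fun n : ℕ => (∏ p ∈ Nat.primesBelow n, (1 - 1 / (p : ℝ) ^ 2))⁻¹) Filter.atTop
      (nhds (Real.pi ^ 2 / 6)) := by
    have h8 := (Complex.continuous_re.tendsto _).comp h3
    rw [Complex.ofReal_re] at h8
    exact h8.congr (fun n => Complex.ofReal_re _)
  have hne : Real.pi ^ 2 / 6 ≠ 0 := by
    have := Real.pi_pos
    positivity
  have h5 := h4.inv₀ hne
  simp only [inv_inv] at h5
  have h6 : (Real.pi ^ 2 / 6)⁻¹ = 6 / Real.pi ^ 2 := by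
    rw [inv_div]
  rw [h6] at h5
  have h7 := h5.comp (Filter.tendsto_add_atTop_nat 1)
  exact h7

end Pool.Agent.T5
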