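import Pool.Agent.helper82.T5.SpecS

set_option autoImplicit false

namespace Pool.Agent.T5

open Finset NumberField Pool.Agent.helper3.FT Pool.Agent.helper47.RA

lemma SFC_abs (x M : ℤ) (h : x ^ 2 ≤ M) : |x| ≤ M := by
  have h1 : |x| ≤ x ^ 2 := by
    rw [← sq_abs]
    rcases (abs_nonneg x).eq_or_lt with h0 | h0
    · rw [← h0]
      norm_num
    · nlinarith [Int.add_one_le_iff.mpr h0]
  linarith

theorem SFC (hAIST : AIST_stmt) : SFC_stmt := by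
  intro κ N Y Y₂ hκ hN hY hY₂
  obtain ⟨M, hM⟩ : ∃ M : ℕ, max Y Y₂ ≤ M := exists_nat_ge _
  have hM1 : Y ≤ M := (le_max_left _ _).trans hM
  have hM2 : Y₂ ≤ M := (le_max_right _ _).trans hM
  let B : ℕ := 4 * M ^ 3
  let E : ℤ := 128 * (M : ℤ) ^ 9
  have hfin : (((Finset.Icc 0 B ×ˢ Finset.Icc 0 B) ×ˢ (Finset.Icc (-E) E ×ˢ (Finset.Icc (-E) E ×ˢ Finset.Icc 0 (M : ℤ))) :
      Finset ((ℕ × ℕ) × (ℤ × ℤ × ℤ))) : Set Tpl).Finite := Finset.finite_toSet _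
  apply hfin.subset
  intro t ht
  obtain ⟨hT, z1, z2, d1, d2, l1, l2, -, -⟩ := ht
  obtain ⟨h1, -, -, ⟨A, C, hA, hC, -, hD1, hD2⟩, h5, -⟩ := hAIST t hT
  have hZ0 : 0 < t.2.2.2 := by
    have : (0 : ℝ) < t.2.2.2 := by linarith
    exact_mod_cast this
  have hL0 : 0 < lam t := by
    have h : 0 < κ * Y₂ := mul_pos hκ hY₂
    have : (0 : ℝ) < lam t := by linarith
    exact_mod_cast this
  have hd0 : 0 < -dis t := by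
    have : (0 : ℝ) < -(dis t : ℝ) := by linarith
    exact_mod_cast this
  have hZM : t.2.2.2 ≤ M := by
    have : (t.2.2.2 : ℝ) ≤ M := by linarith
    exact_mod_cast this
  have hLM : lam t ≤ M := by
    have hs : 0 < √N := Real.sqrt_pos.mpr hN
    have h6 : √(-(dis t : ℝ)) ≤ √N := Real.sqrt_le_sqrt d2
    have h7 : (lam t : ℝ) * √N ≤ Y₂ * √N := l2.trans (mul_le_mul_of_nonneg_left h6 hY₂.le)
    have h8 : (lam t : ℝ) ≤ Y₂ := le_of_mul_le_mul_right h7 hs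
    have : (lam t : ℝ) ≤ M := by linarith
    exact_mod_cast this
  obtain ⟨Z, hZ⟩ : ∃ Z, Z = t.2.2.2 := ⟨_, rfl⟩
  obtain ⟨L, hL⟩ : ∃ L, L = lam t := ⟨_, rfl⟩
  obtain ⟨Δ, hΔ⟩ : ∃ Δ, Δ = -dis t := ⟨_, rfl⟩
  obtain ⟨n, hn⟩ : ∃ n : ℤ, n = (t.1.1 : ℤ) := ⟨_, rfl⟩
  obtain ⟨k, hk⟩ : ∃ k : ℤ, k = (t.1.2 : ℤ) := ⟨_, rfl⟩
  have hdis : dis t = -Δ := by rw [hΔ]; ring
  rw [← hZ] at hZ0 hZM h1 h5 hD1 hD2
  rw [← hL] at hL0 hLM h1 h5 hD1 hD2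
  rw [← hΔ] at hd0
  rw [hdis] at h5 hD1 hD2
  rw [← hn] at h1 h5 hD1
  rw [← hk] at h1 h5 hD2
  have hM0 : (0 : ℤ) ≤ M := Int.natCast_nonneg M
  have hZZL : Z ^ 2 * L ≤ (M : ℤ) ^ 3 := by
    calc Z ^ 2 * L ≤ (M : ℤ) ^ 2 * M := by gcongr
      _ = (M : ℤ) ^ 3 := by ring
  have hZLL : Z * L ^ 2 ≤ (M : ℤ) ^ 3 := by
    calc Z * L ^ 2 ≤ (M : ℤ) * M ^ 2 := by gcongr
      _ = (M : ℤ) ^ 3 := by ring
  have hn2 : n ^ 2 ≤ 4 * (M : ℤ) ^ 3 := by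
    have h6 : n ^ 2 ≤ Δ * n ^ 2 := by nlinarith [sq_nonneg n]
    nlinarith [sq_nonneg A]
  have hk2 : k ^ 2 ≤ 4 * (M : ℤ) ^ 3 := by
    have h6 : k ^ 2 ≤ Δ * k ^ 2 := by nlinarith [sq_nonneg k]
    nlinarith [sq_nonneg C]
  have hnB := SFC_abs n _ hn2
  have hkB := SFC_abs k _ hk2
  have q1 : (Z * t.2.2.1 - L * t.2.1) ^ 2 ≤ 4 * (Z ^ 2 * L) * k ^ 2 := by
    have h7 : 0 ≤ Δ * (n * k) ^ 2 := by positivity
    linarith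
  have q2 : (Z * t.2.2.1 + L * t.2.1) ^ 2 ≤ 4 * (Z * L ^ 2) * n ^ 2 := by
    have h7 : 0 ≤ Δ * (n * k) ^ 2 := by positivity
    have h8 : (Z * t.2.2.1 + L * t.2.1) ^ 2 = (Z * t.2.2.1 - L * t.2.1) ^ 2 + 4 * Z * L * (t.2.1 * t.2.2.1) := by ring
    have h9 : t.2.1 * t.2.2.1 = L * n ^ 2 - Z * k ^ 2 := by linarith
    rw [h8, h9]
    linarith
  have hM3 : (0 : ℤ) ≤ (M : ℤ) ^ 3 := by positivity
  have r1 : (Z * t.2.2.1 - L * t.2.1) ^ 2 ≤ 16 * (M : ℤ) ^ 6 := by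
    calc (Z * t.2.2.1 - L * t.2.1) ^ 2 ≤ 4 * (Z ^ 2 * L) * k ^ 2 := q1
      _ ≤ 4 * ((M : ℤ) ^ 3) * (4 * (M : ℤ) ^ 3) := by gcongr
      _ = 16 * (M : ℤ) ^ 6 := by ring
  have r2 : (Z * t.2.2.1 + L * t.2.1) ^ 2 ≤ 16 * (M : ℤ) ^ 6 := by
    calc (Z * t.2.2.1 + L * t.2.1) ^ 2 ≤ 4 * (Z * L ^ 2) * n ^ 2 := q2
      _ ≤ 4 * ((M : ℤ) ^ 3) * (4 * (M : ℤ) ^ 3) := by gcongr
      _ = 16 * (M : ℤ) ^ 6 := by ring
  have r3 := SFC_abs _ _ r1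
  have r4 := SFC_abs _ _ r2
  have hM1' : (1 : ℤ) ≤ M := by linarith
  have hE : 16 * (M : ℤ) ^ 6 ≤ 128 * (M : ℤ) ^ 9 := by
    have : (M : ℤ) ^ 6 ≤ (M : ℤ) ^ 9 := pow_le_pow_right₀ hM1' (by norm_num)
    have h6 : (0 : ℤ) ≤ (M : ℤ) ^ 6 := by positivity
    linarith
  have hg : |t.2.2.1| ≤ 16 * (M : ℤ) ^ 6 := by
    have h7 : |2 * Z * t.2.2.1| ≤ 2 * (16 * (M : ℤ) ^ 6) := by
      have h8 : 2 * Z * t.2.2.1 = (Z * t.2.2.1 - L * t.2.1) + (Z * t.2.2.1 + L * t.2.1) := by ring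
      rw [h8]
      exact (abs_add_le _ _).trans (by linarith)
    rw [abs_mul, abs_of_pos (by positivity : 0 < 2 * Z)] at h7
    nlinarith [abs_nonneg t.2.2.1]
  have hm : |t.2.1| ≤ 16 * (M : ℤ) ^ 6 := by
    have h7 : |2 * L * t.2.1| ≤ 2 * (16 * (M : ℤ) ^ 6) := by
      have h8 : 2 * L * t.2.1 = (Z * t.2.2.1 + L * t.2.1) - (Z * t.2.2.1 - L * t.2.1) := by ring
      rw [h8]
      exact (abs_sub _ _).trans (by linarith)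
    rw [abs_mul, abs_of_pos (by positivity : 0 < 2 * L)] at h7
    nlinarith [abs_nonneg t.2.1]
  rw [Finset.mem_coe]
  simp only [Finset.mem_product, Finset.mem_Icc]
  rw [abs_le] at hnB hkB hg hm
  rw [hn] at hnB
  rw [hk] at hkB
  refine ⟨⟨⟨Nat.zero_le _, ?_⟩, ⟨Nat.zero_le _, ?_⟩⟩, ⟨?_, ?_⟩, ⟨?_, ?_⟩, ?_, ?_⟩
  · show t.1.1 ≤ 4 * M ^ 3
    exact_mod_cast hnB.2
  · show t.1.2 ≤ 4 * M ^ 3
    exact_mod_cast hkB.2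
  · show -(128 * (M : ℤ) ^ 9) ≤ t.2.1
    linarith [hm.1]
  · show t.2.1 ≤ 128 * (M : ℤ) ^ 9
    linarith [hm.2]
  · show -(128 * (M : ℤ) ^ 9) ≤ t.2.2.1
    linarith [hg.1]
  · show t.2.2.1 ≤ 128 * (M : ℤ) ^ 9
    linarith [hg.2]
  · rw [← hZ]
    exact hZ0.le
  · rw [← hZ]
    exact hZM

end Pool.Agent.T5
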