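import Pool.Agent.helper82.T5.SpecS

set_option autoImplicit false

namespace Pool.Agent.T5

open Finset NumberField Pool.Agent.helper3.FT Pool.Agent.helper47.RA

theorem SQ0 (hAIST : AIST_stmt) : SQ0_stmt := by
  intro t ht
  obtain ⟨h1, h2, -, ⟨A, C, hA, hC, hA2, hD1, hD2⟩, -, -⟩ := hAIST t ht
  have e1 : Zp (t.1.2 : ℤ) t.2.1 (RR t) = (t.1.1 : ℤ) ^ 2 * t.2.2.2 := by
    unfold Zp
    linear_combination h2
  have e2 : Lp (t.1.1 : ℤ) t.1.2 t.2.1 t.2.2.1 (RR t) = (t.1.1 : ℤ) ^ 4 * lam t := by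
    unfold Lp
    rw [e1]
    linear_combination (-(t.1.1 : ℤ) ^ 2) * h1
  have e3 : Ap (t.1.1 : ℤ) t.1.2 t.2.1 t.2.2.1 (RR t) = (t.1.1 : ℤ) ^ 4 * A := by
    unfold Ap
    rw [e1]
    linear_combination (-(t.1.1 : ℤ) ^ 2) * hA2
  refine ⟨e1, e2, ?_⟩
  unfold Pp
  rw [e1, e2, e3]
  linear_combination (-(t.1.1 : ℤ) ^ 8) * hD1

end Pool.Agent.T5
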