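import Pool.Agent.helper82.T5.SpecS

set_option autoImplicit false

namespace Pool.Agent.T5

open Finset NumberField Pool.Agent.helper3.FT Pool.Agent.helper47.RA

theorem SR2 (hSR1 : SR1_stmt) (hSFA : SFA_stmt) : SR2_stmt := by
  classical
  intro h hh N Y I R₀ J hN hY hI hR hJ
  have key : ∀ D ∈ (Icc (-⌊N⌋) (-1)).filter IsFund, (h D Y : ℝ) =
      ∑ r ∈ Icc 1 R₀, ∑ j ∈ range J, (cA D (Y / ((r : ℝ) ^ 2 * 2 ^ j)) : ℝ) := by
    intro D hD
    rw [Finset.mem_filter, Finset.mem_Icc] at hD
    have hne : Nonempty (Fld D) := hSFA.2.2 D hD.2 (by omega)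
    have h1 : h D Y = (ALLI hne.some.K Y).ncard := by
      have h2 := hh hne.some.K hne.some.fin Y
      rw [hne.some.dK] at h2
      exact h2
    rw [h1, hSR1 hne.some.K hne.some.Q hne.some.fin Y R₀ J hY hR hJ]
    push_cast
    apply Finset.sum_congr rfl
    intro r _
    apply Finset.sum_congr rfl
    intro j _
    unfold cA
    rw [dif_pos hne]
  have hcov : (Icc (-⌊N⌋) (-1)).filter IsFund = (range I).biUnion (fun i => DN (N / 2 ^ i)) := by
    ext D
    rw [Finset.mem_biUnion, Finset.mem_filter, Finset.mem_Icc]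
    constructor
    · rintro ⟨⟨h1, h2⟩, h3⟩
      have h4 : -(D : ℝ) ≤ N := by
        have h5 : -D ≤ ⌊N⌋ := by omega
        have h6 := Int.le_floor.mp h5
        push_cast at h6
        exact h6
      have h5 : (1 : ℝ) ≤ -(D : ℝ) := by
        have : 1 ≤ -D := by omega
        exact_mod_cast this
      have hex : ∃ i : ℕ, N / 2 ^ (i + 1) < -(D : ℝ) := by
        refine ⟨I, ?_⟩
        rw [div_lt_iff₀ (by positivity)]
        have h6 : (2 : ℝ) ^ I ≤ 2 ^ (I + 1) := pow_le_pow_right₀ (by norm_num) (by omega)
        nlinarith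
      have hI1 : 1 ≤ I := by
        rcases Nat.eq_zero_or_pos I with h6 | h6
        · rw [h6] at hI
          norm_num at hI
          linarith
        · exact h6
      have hle : Nat.find hex ≤ I - 1 := by
        apply Nat.find_min'
        have h6 : I - 1 + 1 = I := by omega
        rw [h6, div_lt_iff₀ (by positivity)]
        nlinarith
      refine ⟨Nat.find hex, Finset.mem_range.mpr (by omega), ?_⟩
      have hup : -(D : ℝ) ≤ N / 2 ^ (Nat.find hex) := by
        rcases Nat.eq_zero_or_pos (Nat.find hex) with h6 | h6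
        · rw [h6]
          simpa using h4
        · have h7 := Nat.find_min hex (m := Nat.find hex - 1) (by omega)
          have h8 : Nat.find hex - 1 + 1 = Nat.find hex := by omega
          rw [h8, not_lt] at h7
          exact h7
      unfold DN
      rw [Finset.mem_filter, Finset.mem_Icc]
      refine ⟨⟨?_, h2⟩, h3, ?_⟩
      · have h6 : -D ≤ ⌊N / 2 ^ (Nat.find hex)⌋ := by
          apply Int.le_floor.mpr
          push_cast
          exact hup
        omega
      · have h7 := Nat.find_spec hex
        rw [pow_succ, ← div_div] at h7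
        exact h7
    · rintro ⟨i, -, hi⟩
      unfold DN at hi
      rw [Finset.mem_filter, Finset.mem_Icc] at hi
      refine ⟨⟨?_, hi.1.2⟩, hi.2.1⟩
      have h6 : ⌊N / 2 ^ i⌋ ≤ ⌊N⌋ := by
        apply Int.floor_le_floor
        apply div_le_self (by linarith)
        exact one_le_pow₀ (by norm_num)
      omega
  have hdis : ∀ i ∈ range I, ∀ i' ∈ range I, i ≠ i' → Disjoint (DN (N / 2 ^ i)) (DN (N / 2 ^ i')) := by
    have haux : ∀ i i' : ℕ, i < i' → Disjoint (DN (N / 2 ^ i)) (DN (N / 2 ^ i')) := by
      intro i i' hii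
      rw [Finset.disjoint_left]
      intro D h1 h2
      unfold DN at h1 h2
      rw [Finset.mem_filter, Finset.mem_Icc] at h1 h2
      have h3 : -(D : ℝ) ≤ N / 2 ^ i' := by
        have h5 : -D ≤ ⌊N / 2 ^ i'⌋ := by omega
        have h6 := Int.le_floor.mp h5
        push_cast at h6
        exact h6
      have h4 := h1.2.2
      have h5 : N / 2 ^ i' ≤ N / 2 ^ i / 2 := by
        rw [div_div, ← pow_succ]
        apply div_le_div_of_nonneg_left (by linarith) (by positivity)
        exact pow_le_pow_right₀ (by norm_num) (by omega)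
      linarith
    intro i _ i' _ hii
    rcases Nat.lt_or_gt_of_ne hii with h1 | h1
    · exact haux i i' h1
    · exact (haux i' i h1).symm
  rw [Finset.sum_congr rfl key, hcov, Finset.sum_biUnion hdis]
  apply Finset.sum_congr rfl
  intro i _
  rw [Finset.sum_comm]
  apply Finset.sum_congr rfl
  intro r _
  rw [Finset.sum_comm]

end Pool.Agent.T5
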