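import Pool.Agent.helper94.T5.SpecV

set_option autoImplicit false

namespace Pool.Agent.T5V

open MeasureTheory Set
open scoped ENNReal

/-- coordinates -/
def VJB_cx (x : ℝ × ℝ × ℝ × ℝ × ℝ) : Fin 5 → ℝ := ![x.1, x.2.1, x.2.2.1, x.2.2.2.1, x.2.2.2.2]

lemma VJB_mem (b : Bx) (x : ℝ × ℝ × ℝ × ℝ × ℝ) : x ∈ b.set ↔ ∀ i, b.lo i < VJB_cx x i ∧ VJB_cx x i ≤ b.hi i := by
  constructor
  · rintro ⟨h0, h1, h2, h3, h4⟩ i
    fin_cases i
    · exact h0
    · exact h1
    · exact h2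
    · exact h3
    · exact h4
  · intro h
    exact ⟨h 0, h 1, h 2, h 3, h 4⟩

lemma VJB_dist (x y : ℝ × ℝ × ℝ × ℝ × ℝ) (h : ℝ) (H : ∀ i, |VJB_cx x i - VJB_cx y i| ≤ h) : dist x y ≤ h := by
  rw [Prod.dist_eq, Prod.dist_eq, Prod.dist_eq, Prod.dist_eq]
  exact max_le (H 0) (max_le (H 1) (max_le (H 2) (max_le (H 3) (H 4))))

lemma VJB_abs (x : ℝ × ℝ × ℝ × ℝ × ℝ) (i : Fin 5) : |VJB_cx x i| ≤ ‖x‖ := by
  have h1 : ‖x.1‖ ≤ ‖x‖ := norm_fst_le x
  have h2 : ‖x.2‖ ≤ ‖x‖ := norm_snd_le x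
  have h3 : ‖x.2.1‖ ≤ ‖x.2‖ := norm_fst_le x.2
  have h4 : ‖x.2.2‖ ≤ ‖x.2‖ := norm_snd_le x.2
  have h5 : ‖x.2.2.1‖ ≤ ‖x.2.2‖ := norm_fst_le x.2.2
  have h6 : ‖x.2.2.2‖ ≤ ‖x.2.2‖ := norm_snd_le x.2.2
  have h7 : ‖x.2.2.2.1‖ ≤ ‖x.2.2.2‖ := norm_fst_le x.2.2.2
  have h8 : ‖x.2.2.2.2‖ ≤ ‖x.2.2.2‖ := norm_snd_le x.2.2.2
  fin_cases i
  · exact h1
  · exact h3.trans h2
  · exact (h5.trans h4).trans h2
  · exact ((h7.trans h6).trans h4).trans h2
  · exact ((h8.trans h6).trans h4).trans h2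

lemma VJB_prod (b : Bx) : b.set = Ioc (b.lo 0) (b.hi 0) ×ˢ (Ioc (b.lo 1) (b.hi 1) ×ˢ (Ioc (b.lo 2) (b.hi 2) ×ˢ
    (Ioc (b.lo 3) (b.hi 3) ×ˢ Ioc (b.lo 4) (b.hi 4)))) := by
  ext x
  simp only [Bx.set, mem_ofPred_eq, mem_prod, mem_Ioc]

lemma VJB_pre (b : Bx) : IsPreconnected b.set := by
  rw [VJB_prod]
  exact isPreconnected_Ioc.prod (isPreconnected_Ioc.prod (isPreconnected_Ioc.prod
    (isPreconnected_Ioc.prod isPreconnected_Ioc)))

lemma VJB_front {X : Type} [TopologicalSpace X] (t S : Set X) (ht : IsPreconnected t) (h1 : (t ∩ S).Nonempty)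
    (h2 : ∃ w ∈ t, w ∉ S) : (t ∩ frontier S).Nonempty := by
  by_contra hcon
  have hno : ∀ x ∈ t, x ∉ frontier S := fun x hx hf => hcon ⟨x, hx, hf⟩
  have hcov : ∀ x ∈ t, (x ∈ S → x ∈ interior S) ∧ (x ∉ S → x ∈ interior Sᶜ) := by
    intro x hx
    constructor
    · intro hS
      by_contra hi
      exact hno x hx ⟨subset_closure hS, hi⟩
    · intro hS
      by_contra hi
      rw [interior_compl, mem_compl_iff, not_not] at hi
      exact hno x hx ⟨hi, fun h => hS (interior_subset h)⟩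
  obtain ⟨x, hx1, hx2⟩ := h1
  obtain ⟨w, hw1, hw2⟩ := h2
  obtain ⟨y, hy1, hy2, hy3⟩ := ht (interior S) (interior Sᶜ) isOpen_interior isOpen_interior
    (fun z hz => by
      by_cases hS : z ∈ S
      · exact Or.inl ((hcov z hz).1 hS)
      · exact Or.inr ((hcov z hz).2 hS)) ⟨x, hx1, (hcov x hx1).1 hx2⟩ ⟨w, hw1, (hcov w hw1).2 hw2⟩
  exact (interior_subset hy3) (interior_subset hy2)

/-- the grid box -/
noncomputable def VJB_b (h : ℝ) (u : Fin 5 → ℤ) : Bx := ⟨fun i => h * u i, fun i => h * (u i + 1)⟩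

lemma VJB_uniq (h : ℝ) (hh : 0 < h) (u v : Fin 5 → ℤ) (x : ℝ × ℝ × ℝ × ℝ × ℝ) (hu : x ∈ (VJB_b h u).set)
    (hv : x ∈ (VJB_b h v).set) : u = v := by
  rw [VJB_mem] at hu hv
  funext i
  have h1 : h * u i < h * (v i + 1) := lt_of_lt_of_le (hu i).1 (hv i).2
  have h2 : h * v i < h * (u i + 1) := lt_of_lt_of_le (hv i).1 (hu i).2
  have h3 : (u i : ℝ) < v i + 1 := lt_of_mul_lt_mul_left h1 hh.le
  have h4 : (v i : ℝ) < u i + 1 := lt_of_mul_lt_mul_left h2 hh.le
  have h5 : u i < v i + 1 := by exact_mod_cast h3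
  have h6 : v i < u i + 1 := by exact_mod_cast h4
  omega

lemma VJB_ex (h : ℝ) (hh : 0 < h) (x : ℝ × ℝ × ℝ × ℝ × ℝ) :
    x ∈ (VJB_b h (fun i => ⌈VJB_cx x i / h⌉ - 1)).set := by
  rw [VJB_mem]
  intro i
  have h1 := Int.le_ceil (VJB_cx x i / h)
  have h2 := Int.ceil_lt_add_one (VJB_cx x i / h)
  have h3 : VJB_cx x i = h * (VJB_cx x i / h) := by field_simp
  simp only [VJB_b]
  push_cast
  constructor
  · calc h * ((⌈VJB_cx x i / h⌉ : ℝ) - 1) < h * (VJB_cx x i / h) := by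
          apply mul_lt_mul_of_pos_left _ hh
          linarith
      _ = VJB_cx x i := h3.symm
  · calc VJB_cx x i = h * (VJB_cx x i / h) := h3
      _ ≤ h * ((⌈VJB_cx x i / h⌉ : ℝ) - 1 + 1) := by
          apply mul_le_mul_of_nonneg_left _ hh.le
          linarith

theorem VJB (hVMU : VMU_stmt) : VJB_stmt := by
  intro S c hc hSm hSb hSf hSc η hη
  classical
  obtain ⟨R, hR0, hR⟩ : ∃ R : ℝ, 0 < R ∧ ∀ x ∈ S, ‖x‖ ≤ R := by
    obtain ⟨R, hR⟩ := hSb.exists_norm_le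
    exact ⟨|R| + 1, by positivity, fun x hx => (hR x hx).trans (by linarith [le_abs_self R])⟩
  obtain ⟨c', hc'⟩ : ∃ c', c' = min (c / 2) (1 / (R + 1)) := ⟨_, rfl⟩
  have hc'0 : 0 < c' := by
    rw [hc']
    exact lt_min (by positivity) (by positivity)
  have hc'1 : c' ≤ c / 2 := by rw [hc']; exact min_le_left _ _
  have hc'2 : R + 1 ≤ 1 / c' := by
    rw [le_div_iff₀ hc'0]
    have : c' ≤ 1 / (R + 1) := by rw [hc']; exact min_le_right _ _
    calc (R + 1) * c' ≤ (R + 1) * (1 / (R + 1)) := mul_le_mul_of_nonneg_left this (by positivity)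
      _ = 1 := by field_simp
  -- the choice of the mesh
  have hK : IsCompact (frontier S) :=
    hSb.isCompact_closure.of_isClosed_subset isClosed_frontier frontier_subset_closure
  have hT := tendsto_measure_cthickening_of_isCompact (μ := (volume : Measure (ℝ × ℝ × ℝ × ℝ × ℝ))) hK
  rw [hSf] at hT
  have hε : (0 : ℝ≥0∞) < ENNReal.ofReal (η * c' ^ 4) := by
    rw [ENNReal.ofReal_pos]
    positivity
  have hev := hT.eventually (gt_mem_nhds hε)
  obtain ⟨δ, hδ, hδ2⟩ := Metric.eventually_nhds_iff.mp hev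
  obtain ⟨h, hh⟩ : ∃ h, h = min (δ / 2) (min (c / 2) 1) := ⟨_, rfl⟩
  have hh0 : 0 < h := by
    rw [hh]
    exact lt_min (by positivity) (lt_min (by positivity) one_pos)
  have hh1 : h ≤ δ / 2 := by rw [hh]; exact min_le_left _ _
  have hh2 : h ≤ c / 2 := by rw [hh]; exact (min_le_right _ _).trans (min_le_left _ _)
  have hh3 : h ≤ 1 := by rw [hh]; exact (min_le_right _ _).trans (min_le_right _ _)
  have hvol : volume (Metric.cthickening h (frontier S)) < ENNReal.ofReal (η * c' ^ 4) := by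
    apply hδ2
    rw [Real.dist_eq, sub_zero, abs_of_pos hh0]
    linarith
  -- the boxes which meet S
  obtain ⟨K, hKK⟩ : ∃ K : ℤ, (R + 1) / h ≤ K := ⟨⌈(R + 1) / h⌉, Int.le_ceil _⟩
  let U : Finset (Fin 5 → ℤ) :=
    (Fintype.piFinset (fun _ : Fin 5 => Finset.Icc (-K) K)).filter (fun u => ((VJB_b h u).set ∩ S).Nonempty)
  have hU : ∀ u : Fin 5 → ℤ, u ∈ U ↔ ((VJB_b h u).set ∩ S).Nonempty := by
    intro u
    simp only [U, Finset.mem_filter, Fintype.mem_piFinset, Finset.mem_Icc]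
    constructor
    · exact fun H => H.2
    · rintro ⟨x, hx1, hx2⟩
      refine ⟨fun i => ?_, ⟨x, hx1, hx2⟩⟩
      have h1 := (VJB_mem _ _).mp hx1 i
      have h2 := (VJB_abs x i).trans (hR x hx2)
      rw [abs_le] at h2
      have h3 : h * (u i : ℝ) < VJB_cx x i := h1.1
      have h4 : VJB_cx x i ≤ h * ((u i : ℝ) + 1) := h1.2
      have h5 : (R + 1) ≤ h * K := by
        rw [div_le_iff₀ hh0] at hKK
        linarith
      constructor
      · have h6 : h * (-(K : ℝ)) ≤ h * (u i : ℝ) := by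
          nlinarith
        have h7 : (-(K : ℝ)) ≤ u i := le_of_mul_le_mul_left h6 hh0
        exact_mod_cast h7
      · have h6 : h * (u i : ℝ) ≤ h * (K : ℝ) := by
          nlinarith
        have h7 : (u i : ℝ) ≤ K := le_of_mul_le_mul_left h6 hh0
        exact_mod_cast h7
  have hmeet : ∀ u ∈ U, ∃ x ∈ S, ∀ i, |VJB_cx x i| ≤ R ∧ VJB_cx x i - h ≤ (VJB_b h u).lo i ∧
      (VJB_b h u).hi i ≤ VJB_cx x i + h := by
    intro u hu
    obtain ⟨x, hx1, hx2⟩ := (hU u).mp hu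
    refine ⟨x, hx2, fun i => ⟨(VJB_abs x i).trans (hR x hx2), ?_, ?_⟩⟩
    · have h1 := ((VJB_mem _ _).mp hx1 i).2
      simp only [VJB_b] at h1 ⊢
      linarith
    · have h1 := ((VJB_mem _ _).mp hx1 i).1
      simp only [VJB_b] at h1 ⊢
      linarith
  have hok : ∀ u ∈ U, (VJB_b h u).ok c' := by
    intro u hu
    obtain ⟨x, hxS, hx⟩ := hmeet u hu
    obtain ⟨x1, x2, x3⟩ := hSc x hxS
    refine ⟨fun i => ?_, ?_, ?_, ?_, fun i => ?_, fun i => ?_⟩
    · simp only [VJB_b]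
      nlinarith
    · have h1 := (hx 1).2.1
      have h2 : VJB_cx x 1 = x.2.1 := rfl
      rw [h2] at h1
      linarith
    · have h1 := (hx 2).2.1
      have h2 : VJB_cx x 2 = x.2.2.1 := rfl
      rw [h2] at h1
      linarith
    · have h1 := (hx 0).2.1
      have h2 : VJB_cx x 0 = x.1 := rfl
      rw [h2] at h1
      linarith
    · have h1 := abs_le.mp (hx i).1
      have h2 := (hx i).2.1
      linarith [h1.1]
    · have h1 := abs_le.mp (hx i).1
      have h2 := (hx i).2.2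
      linarith [h1.2]
  let e := U.equivFin
  let b : Fin U.card → Bx := fun i => VJB_b h (e.symm i).1
  have hdisj : ∀ i j, i ≠ j → Disjoint (b i).set (b j).set := by
    intro i j hij
    rw [Set.disjoint_left]
    intro x hx hx'
    apply hij
    have h1 := VJB_uniq h hh0 _ _ x hx hx'
    exact e.symm.injective (Subtype.ext h1)
  refine ⟨c', U.card, b, Finset.univ.filter (fun i => (b i).set ⊆ S), hc'0, fun i => hok _ (e.symm i).2, hdisj, ?_, ?_, ?_⟩
  · intro x hx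
    have h1 := VJB_ex h hh0 x
    have h2 : (fun i => ⌈VJB_cx x i / h⌉ - 1) ∈ U := (hU _).mpr ⟨x, h1, hx⟩
    rw [mem_iUnion]
    refine ⟨e ⟨_, h2⟩, ?_⟩
    show x ∈ (VJB_b h (e.symm (e ⟨_, h2⟩)).1).set
    rw [Equiv.symm_apply_apply]
    exact h1
  · intro i hi
    exact (Finset.mem_filter.mp hi).2
  · obtain ⟨J, hJ⟩ : ∃ J : Finset (Fin U.card), J = (Finset.univ.filter (fun i => (b i).set ⊆ S))ᶜ := ⟨_, rfl⟩
    rw [← hJ]
    have hmu : ∀ i, 0 ≤ (b i).mu ∧ MeasurableSet (b i).set ∧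
        ∫⁻ x in (b i).set, ENNReal.ofReal (1 / (x.2.1 ^ 3 * x.2.2.1)) = ENNReal.ofReal (b i).mu :=
      fun i => hVMU c' (b i) hc'0 (hok _ (e.symm i).2)
    have hle : ∀ i, ENNReal.ofReal (b i).mu ≤ ENNReal.ofReal (1 / c' ^ 4) * volume (b i).set := by
      intro i
      rw [← (hmu i).2.2, ← setLIntegral_const]
      apply setLIntegral_mono' (hmu i).2.1
      intro x hx
      apply ENNReal.ofReal_le_ofReal
      have hbo := hok _ (e.symm i).2
      have h1 := (VJB_mem _ _).mp hx 1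
      have h2 := (VJB_mem _ _).mp hx 2
      have h3 : c' < x.2.1 := lt_of_le_of_lt hbo.2.1 h1.1
      have h4 : c' < x.2.2.1 := lt_of_le_of_lt hbo.2.2.1 h2.1
      apply one_div_le_one_div_of_le (by positivity)
      calc c' ^ 4 = c' ^ 3 * c' := by ring
        _ ≤ x.2.1 ^ 3 * x.2.2.1 := by
          have h5 : 0 < x.2.1 := hc'0.trans h3
          have h6 : 0 < x.2.2.1 := hc'0.trans h4
          gcongr
    have hsub : (⋃ i ∈ J, (b i).set) ⊆ Metric.cthickening h (frontier S) := by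
      intro y hy
      rw [mem_iUnion₂] at hy
      obtain ⟨i, hi, hyi⟩ := hy
      have hnot : ¬ (b i).set ⊆ S := by
        rw [hJ, Finset.mem_compl, Finset.mem_filter] at hi
        exact fun hh => hi ⟨Finset.mem_univ i, hh⟩
      obtain ⟨w, hw1, hw2⟩ := Set.not_subset.mp hnot
      have hne := (hU _).mp (e.symm i).2
      obtain ⟨v, hv1, hv2⟩ : ((b i).set ∩ frontier S).Nonempty :=
        VJB_front _ _ (VJB_pre (b i)) hne ⟨w, hw1, hw2⟩
      apply Metric.mem_cthickening_of_dist_le y v h _ hv2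
      apply VJB_dist
      intro j
      have h1 := (VJB_mem _ _).mp hyi j
      have h2 := (VJB_mem _ _).mp hv1 j
      simp only [b, VJB_b] at h1 h2
      rw [abs_le]
      constructor <;> nlinarith [h1.1, h1.2, h2.1, h2.2]
    have hsum : ENNReal.ofReal (∑ i ∈ J, (b i).mu) ≤ ENNReal.ofReal η := by
      rw [ENNReal.ofReal_sum_of_nonneg (fun i _ => (hmu i).1)]
      calc ∑ i ∈ J, ENNReal.ofReal (b i).mu ≤ ∑ i ∈ J, ENNReal.ofReal (1 / c' ^ 4) * volume (b i).set :=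
            Finset.sum_le_sum (fun i _ => hle i)
        _ = ENNReal.ofReal (1 / c' ^ 4) * volume (⋃ i ∈ J, (b i).set) := by
            rw [← Finset.mul_sum, measure_biUnion_finset (fun i _ j _ hij => hdisj i j hij) (fun i _ => (hmu i).2.1)]
        _ ≤ ENNReal.ofReal (1 / c' ^ 4) * ENNReal.ofReal (η * c' ^ 4) := by
            gcongr
            exact (measure_mono hsub).trans hvol.le
        _ = ENNReal.ofReal η := by
            rw [← ENNReal.ofReal_mul (by positivity)]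
            congr 1
            field_simp
    exact (ENNReal.ofReal_le_ofReal_iff hη.le).mp hsum

end Pool.Agent.T5V
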